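import Mathlib
import Pool.Agent.Helper66.WS.Defs
import Pool.Agent.Helper66.WS.Main

set_option autoImplicit false

open Pool.Agent.Helper66.WS

namespace Pool.Agent.Results.MP_ba6fcd_an.WaveletSetNotTile

/-- Disproof of the tiling statement for wavelet sets: on `G = ℝ⁴` there are a countable index set
of product form `L × A` with `0 ∈ L`, `A` nonempty and `Δ(a) ≠ 1` for every `a ∈ A`, and a wavelet
set `Ω` with respect to `L × A`, such that `Ω` does not tile `ℝ⁴` additively. -/
theorem result : ∃ (L : Set (E 4)) (A : Set (AutE 4)) (Ω : Set (E 4)),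
    (L ×ˢ A).Countable ∧ (0 : E 4) ∈ L ∧ A.Nonempty ∧ (∀ a ∈ A, modulus a ≠ 1) ∧
      IsWaveletSet (L ×ˢ A) Ω ∧ ¬ TilesAdditively Ω :=
  main

end Pool.Agent.Results.MP_ba6fcd_an.WaveletSetNotTile
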